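import Pool.Agent.H14.AVR.Stmts

/-!
# AVR, module DNI: denominators at infinity
-/

set_option autoImplicit false

namespace Pool.AVR

open Polynomial Matrix

namespace DNI

variable {F : Type} [Field F]

theorem deg_pow {x : RatFunc F} (hx : x ≠ 0) (n : ℕ) : (x ^ n).intDegree = n * x.intDegree := by
  induction n with
  | zero => simp
  | succ n ih =>
    rw [pow_succ, RatFunc.intDegree_mul (pow_ne_zero _ hx) hx, ih]
    push_cast
    ring

theorem deg_X_zpow (k : ℤ) : ((RatFunc.X : RatFunc F) ^ k).intDegree = k := by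
  obtain ⟨n, rfl | rfl⟩ := k.eq_nat_or_neg
  · rw [zpow_natCast, deg_pow RatFunc.X_ne_zero, RatFunc.intDegree_X]
    ring
  · rw [_root_.zpow_neg, zpow_natCast, RatFunc.intDegree_inv, deg_pow RatFunc.X_ne_zero,
      RatFunc.intDegree_X]
    ring

/-- A dominating summand determines the degree. -/
theorem deg_dom {x z : RatFunc F} (hx : x ≠ 0) (h : z ≠ 0 → z.intDegree < x.intDegree) :
    x + z ≠ 0 ∧ (x + z).intDegree = x.intDegree := by
  by_cases hz : z = 0
  · subst hz
    simp [hx]
  have hlt := h hz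
  have hne : x + z ≠ 0 := by
    intro h0
    have h1 : z = -x := eq_neg_of_add_eq_zero_right h0
    rw [h1, RatFunc.intDegree_neg] at hlt
    exact lt_irrefl _ hlt
  refine ⟨hne, le_antisymm ?_ ?_⟩
  · exact (RatFunc.intDegree_add_le hz hne).trans (max_le le_rfl hlt.le)
  · have h2 : (x + z) + (-z) ≠ 0 := by
      rw [add_neg_cancel_right]
      exact hx
    have h3 := RatFunc.intDegree_add_le (neg_ne_zero.mpr hz) h2
    rw [add_neg_cancel_right, RatFunc.intDegree_neg] at h3
    rcases le_max_iff.mp h3 with h4 | h4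
    · exact h4
    · exact absurd h4 (not_le.mpr hlt)

theorem deg_mul_le {a z : RatFunc F} (ha : a.intDegree ≤ 0) (h : a * z ≠ 0) :
    (a * z).intDegree ≤ z.intDegree := by
  rw [RatFunc.intDegree_mul (left_ne_zero_of_mul h) (right_ne_zero_of_mul h)]
  omega

end DNI

open DNI in
theorem dni_thm : DNIStmt := by
  intro F _ a b c x y ha hb hc hE hy
  have ha' : a.intDegree ≤ 0 := ha
  have hb' : b.intDegree ≤ 0 := hb
  have hc' : c.intDegree ≤ 0 := hc
  have hE' : y ^ 2 = x ^ 3 + a * x ^ 2 + b * x + c := hE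
  by_cases hx : x ∈ OInf F
  · refine ⟨x, y, 1, 1, 0, hx, ?_, (OInf F).one_mem, (OInf F).one_mem, (OInf F).zero_mem,
      one_ne_zero, hy, by ring, by simp, by simp⟩
    have h1 : y ^ 2 ∈ OInf F := by
      rw [hE']
      exact (OInf F).add_mem ((OInf F).add_mem ((OInf F).add_mem ((OInf F).pow_mem hx 3)
        ((OInf F).mul_mem ha ((OInf F).pow_mem hx 2))) ((OInf F).mul_mem hb hx)) hc
    have h2 : (y ^ 2).intDegree ≤ 0 := h1
    rw [deg_pow hy] at h2
    have h3 : y.intDegree ≤ 0 := by
      push_cast at h2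
      omega
    exact h3
  · have hxd : 0 < x.intDegree := not_le.mp hx
    have hx0 : x ≠ 0 := by
      rintro rfl
      simp at hxd
    have e3 : (x ^ 3).intDegree = 3 * x.intDegree := by
      rw [deg_pow hx0]
      norm_num
    have e2 : (x ^ 2).intDegree = 2 * x.intDegree := by
      rw [deg_pow hx0]
      norm_num
    have s1 := deg_dom (x := x ^ 3) (z := a * x ^ 2) (pow_ne_zero 3 hx0) (by
      intro h
      have := deg_mul_le ha' h
      omega)
    have s2 := deg_dom (x := x ^ 3 + a * x ^ 2) (z := b * x) s1.1 (by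
      intro h
      have := deg_mul_le hb' h
      rw [s1.2]
      omega)
    have s3 := deg_dom (x := x ^ 3 + a * x ^ 2 + b * x) (z := c) s2.1 (by
      intro h
      rw [s2.2, s1.2]
      omega)
    have hdeg : 2 * y.intDegree = 3 * x.intDegree := by
      have h1 : (y ^ 2).intDegree = 2 * y.intDegree := by
        rw [deg_pow hy]
        norm_num
      rw [← h1, hE', s3.2, s2.2, s1.2, e3]
    obtain ⟨k, hk⟩ : ∃ k : ℤ, x.intDegree = 2 * k := ⟨x.intDegree / 2, by omega⟩
    have hyk : y.intDegree = 3 * k := by omega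
    set w : RatFunc F := (RatFunc.X : RatFunc F) ^ (-k) with hw
    have hw0 : w ≠ 0 := zpow_ne_zero _ RatFunc.X_ne_zero
    have hwd : w.intDegree = -k := deg_X_zpow (-k)
    have hu : (x * w ^ 2).intDegree = 0 := by
      rw [RatFunc.intDegree_mul hx0 (pow_ne_zero _ hw0), deg_pow hw0, hwd, hk]
      push_cast
      ring
    have hv : (y * w ^ 3).intDegree = 0 := by
      rw [RatFunc.intDegree_mul hy (pow_ne_zero _ hw0), deg_pow hw0, hwd, hyk]
      push_cast
      ring
    have hv0 : y * w ^ 3 ≠ 0 := mul_ne_zero hy (pow_ne_zero _ hw0)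
    refine ⟨x * w ^ 2, y * w ^ 3, w, 0, (y * w ^ 3)⁻¹, ?_, ?_, ?_, (OInf F).zero_mem, ?_, hw0, hv0,
      ?_, ?_, ?_⟩
    · exact (show (x * w ^ 2).intDegree ≤ 0 from hu.le)
    · exact (show (y * w ^ 3).intDegree ≤ 0 from hv.le)
    · exact (show w.intDegree ≤ 0 by omega)
    · refine (show ((y * w ^ 3)⁻¹).intDegree ≤ 0 from ?_)
      rw [RatFunc.intDegree_inv, hv]
      norm_num
    · rw [zero_mul, zero_add]
      exact inv_mul_cancel₀ hv0
    · field_simp
    · field_simp

end Pool.AVR
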